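import Mathlib
import Pool.Agent.Lib.MP_5e5661.Final

namespace Pool.Agent.Results.MP_5e5661_co.Determined

/-- `c'` is obtained from `c` by one Kempe swap: for two different colours `a`, `b` and a
connected component `H` of the subgraph induced by the vertices coloured `a` or `b`, the
colouring `c'` exchanges `a` and `b` on `H` and agrees with `c` elsewhere. -/
def KempeStep {V : Type*} (G : SimpleGraph V) {k : ℕ} (c c' : G.Coloring (Fin k)) : Prop :=
  ∃ a b : Fin k, a ≠ b ∧ ∃ H : (G.induce {v | c v = a ∨ c v = b}).ConnectedComponent,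
    (∀ v ∈ Subtype.val '' H.supp, c' v = Equiv.swap a b (c v)) ∧
    (∀ v ∉ Subtype.val '' H.supp, c' v = c v)

/-- The `k`-Kempe-recolouring graph: proper `k`-colourings, two distinct ones being adjacent
when one is obtained from the other by a single Kempe swap. -/
def Kempe {V : Type*} (G : SimpleGraph V) (k : ℕ) : SimpleGraph (G.Coloring (Fin k)) :=
  SimpleGraph.fromRel (KempeStep G)

open Pool.Agent.Kempe5e

theorem ka_of_step {V : Type*} {G : SimpleGraph V} {k : ℕ} {c c' : G.Coloring (Fin k)}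
    (h : KempeStep G c c') : KA G c c' := by
  obtain ⟨a, b, ab, H, h1, h2⟩ := h
  have key : ∀ v ∈ Subtype.val '' H.supp, (c v = a ∧ c' v = b) ∨ (c v = b ∧ c' v = a) := by
    intro v hv
    have e := h1 v hv
    obtain ⟨⟨v, hv'⟩, -, rfl⟩ := hv
    rcases hv' with q | q
    · left; rw [e, q]; simp
    · right; rw [e, q]; simp
  have hs : {v | c v ≠ c' v} = Subtype.val '' H.supp := by
    ext v
    constructor
    · intro q
      by_contra r
      exact q (h2 v r).symm
    · intro q e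
      rcases key v q with r | r
      exacts [ab (r.1.symm.trans (e.trans r.2)), ab (r.2.symm.trans (e.symm.trans r.1))]
  obtain ⟨x0, hx0⟩ := H.nonempty_supp
  refine ⟨fun _ _ q => c.valid q, fun _ _ q => c'.valid q, ⟨x0.1, ?_⟩,
    ⟨a, b, Sw.of_or fun v => ?_⟩, ?_⟩
  · exact (Set.ext_iff.1 hs _).2 ⟨x0, hx0, rfl⟩
  · by_cases q : v ∈ Subtype.val '' H.supp
    exacts [Or.inr (key v q), Or.inl (h2 v q).symm]
  · rw [hs]
    rintro _ ⟨x, hx, rfl⟩ _ ⟨y, hy, rfl⟩
    have r := (SimpleGraph.reachable_iff_reflTransGen x y).1 (H.reachable_of_mem_supp hx hy)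
    clear hy
    have : y ∈ H.supp ∧ Relation.ReflTransGen (fun x y => G.Adj x y ∧
        x ∈ Subtype.val '' H.supp ∧ y ∈ Subtype.val '' H.supp) x.1 y.1 := by
      induction r with
      | refl => exact ⟨hx, .refl⟩
      | tail _ q ih =>
        have m := H.mem_supp_of_adj_mem_supp ih.1 q
        exact ⟨m, ih.2.tail ⟨q, ⟨_, ih.1, rfl⟩, ⟨_, m, rfl⟩⟩⟩
    exact this.2

theorem step_of_ka {V : Type*} {G : SimpleGraph V} {k : ℕ} {c c' : G.Coloring (Fin k)}
    (h : KA G c c') : KempeStep G c c' := by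
  obtain ⟨a, b, ab, s, -⟩ := h.lab
  obtain ⟨v0, hv0⟩ := h.ne
  have hs : ∀ v, v ∈ Subtype.val '' ((G.induce {v | c v = a ∨ c v = b}).connectedComponentMk
      ⟨v0, (s v0 hv0).1⟩).supp ↔ c v ≠ c' v := by
    intro v
    constructor
    · rintro ⟨y, hy, rfl⟩
      have r := (SimpleGraph.reachable_iff_reflTransGen _ y).1
        (SimpleGraph.ConnectedComponent.exact hy).symm
      clear hy
      induction r with
      | refl => exact hv0
      | @tail p q _ pq ih => exact closure h.pc h.pd s ih pq q.2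
    · intro hv
      refine h.conn.sub (P := Subtype.val '' ((G.induce {v | c v = a ∨ c v = b}).connectedComponentMk
        ⟨v0, (s v0 hv0).1⟩).supp) hv0 ⟨_, rfl, rfl⟩ ?_ v hv
      rintro _ - y hy hadj ⟨x, hx, rfl⟩
      exact ⟨⟨y, (s y hy).1⟩, SimpleGraph.ConnectedComponent.mem_supp_of_adj_mem_supp _ hx hadj, rfl⟩
  refine ⟨a, b, ab, SimpleGraph.connectedComponentMk _ ⟨v0, (s v0 hv0).1⟩, fun v hv => ?_, fun v hv => ?_⟩
  · rcases s.or v with q | ⟨q1, q2⟩ | ⟨q1, q2⟩
    · exact ((hs v).1 hv q).elim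
    · rw [q1, q2]; simp
    · rw [q1, q2]; simp
  · by_contra q
    exact hv ((hs v).2 (Ne.symm q))

theorem adj_iff {V : Type*} {G : SimpleGraph V} {k : ℕ} (c c' : G.Coloring (Fin k)) :
    (Kempe G k).Adj c c' ↔ KA G c c' := by
  rw [Kempe, SimpleGraph.fromRel_adj]
  constructor
  · rintro ⟨-, h | h⟩
    exacts [ka_of_step h, (ka_of_step h).symm]
  · intro h
    exact ⟨fun e => h.ne' (by rw [e]), Or.inl (step_of_ka h)⟩

theorem ex_free {V : Type*} {G : SimpleGraph V} {k : ℕ} (h : G.chromaticNumber < k) :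
    ∃ (c : V → Fin k) (z : Fin k), Proper G c ∧ ∀ v, c v ≠ z := by
  obtain ⟨m, rfl⟩ : ∃ m, k = m + 1 := by
    cases k with
    | zero => simp at h
    | succ m => exact ⟨m, rfl⟩
  have : G.chromaticNumber ≤ m := by
    rw [Nat.cast_succ] at h
    exact Order.le_of_lt_add_one h
  obtain ⟨c⟩ := SimpleGraph.chromaticNumber_le_iff_colorable.1 this
  exact ⟨fun v => (c v).castSucc, Fin.last m,
    fun u v q e => c.valid q (Fin.castSucc_injective _ e), fun v => (Fin.castSucc_lt_last _).ne⟩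

theorem result {V V' : Type*} [Finite V] [Finite V'] (G : SimpleGraph V) (G' : SimpleGraph V')
    (k k' : ℕ) (hk : G.chromaticNumber < k) (hk' : G'.chromaticNumber < k')
    (h : Nonempty (Kempe G k ≃g Kempe G' k')) : Nonempty (G ≃g G') := by
  classical
  obtain ⟨e⟩ := h
  obtain ⟨c, z, pc, hz⟩ := ex_free hk
  obtain ⟨c', z', pc', hz'⟩ := ex_free hk'
  let φ : (V → Fin k) → (V' → Fin k') := fun d =>
    if h : Proper G d then e (SimpleGraph.Coloring.mk d fun q => h _ _ q) else c'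
  let ψ : (V' → Fin k') → (V → Fin k) := fun d =>
    if h : Proper G' d then e.symm (SimpleGraph.Coloring.mk d fun q => h _ _ q) else c
  have a1 : ∀ d : G.Coloring (Fin k), φ d = e d := fun d => by
    have p : Proper G d := fun _ _ q => d.valid q
    simp only [φ, dif_pos p]
    rfl
  have a2 : ∀ d : G'.Coloring (Fin k'), ψ d = e.symm d := fun d => by
    have p : Proper G' d := fun _ _ q => d.valid q
    simp only [ψ, dif_pos p]
    rfl
  have b1 : ∀ d, Proper G d → ∃ x : G.Coloring (Fin k), d = x := fun d p =>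
    ⟨SimpleGraph.Coloring.mk d fun q => p _ _ q, rfl⟩
  have b2 : ∀ d, Proper G' d → ∃ x : G'.Coloring (Fin k'), d = x := fun d p =>
    ⟨SimpleGraph.Coloring.mk d fun q => p _ _ q, rfl⟩
  refine kempe_iso (φ := φ) (ψ := ψ) ⟨fun d p => ?_, fun d p => ?_, fun d p => ?_, fun d p => ?_,
    fun d d' q => ?_, fun d d' q => ?_⟩ pc hz pc' hz'
  · obtain ⟨x, rfl⟩ := b1 d p
    rw [a1]; exact fun _ _ q => (e x).valid q
  · obtain ⟨x, rfl⟩ := b2 d p
    rw [a2]; exact fun _ _ q => (e.symm x).valid q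
  · obtain ⟨x, rfl⟩ := b1 d p
    rw [a1, a2, RelIso.symm_apply_apply]
  · obtain ⟨x, rfl⟩ := b2 d p
    rw [a2, a1, RelIso.apply_symm_apply]
  · obtain ⟨x, rfl⟩ := b1 d q.pc
    obtain ⟨y, rfl⟩ := b1 d' q.pd
    rw [a1, a1, ← adj_iff, e.map_adj_iff, adj_iff]
    exact q
  · obtain ⟨x, rfl⟩ := b2 d q.pc
    obtain ⟨y, rfl⟩ := b2 d' q.pd
    rw [a2, a2, ← adj_iff, e.symm.map_adj_iff, adj_iff]
    exact q

end Pool.Agent.Results.MP_5e5661_co.Determined
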